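import Mathlib
import Pool.Agent.Q151.XI.Poset

/-!
# All gaps between the topological index and the simplicial index of order complexes are realised

The definitions (`GComplex`, its geometric realization, `E G k`, `ind`, `sind`, `GPoset` and the
order complex) are in `Pool.Agent.Q151.XI.Defs`.
-/

set_option autoImplicit false

namespace Pool.Agent.Results.MP_6f03fc_co.AllGaps

open Q151.XI

/-- For every nontrivial finite group `G` and all integers `m > n ≥ 1` there is a finite free
`G`-poset `P` whose order complex has simplicial index `m` and topological index `n`. -/
theorem result (G : Type) [Group G] [Fintype G] [Nontrivial G] (m n : ℕ) (hn : 1 ≤ n)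
    (hmn : n < m) :
    ∃ P : GPoset G, P.IsFree ∧ sind P.orderComplex = m ∧
      ind G P.orderComplex.Realization = n := by
  obtain ⟨P, h1, h2, -, h4⟩ := exists_poset G Fintype.one_lt_card n m hn hmn
  exact ⟨P, h1, h4, h2⟩

end Pool.Agent.Results.MP_6f03fc_co.AllGaps
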